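import Pool.Agent.Q5.OM.Pack
import Pool.Agent.Results.MP_4a9ea6_nt.SimpleZeros

/-!
# The product of Birch and Swinnerton-Dyer exceeds its predicted value infinitely often

Let `E : y² = x³ + a x + b` be an elliptic curve over `ℚ`, `f` its newform, `Λ` its completed `L`-function, `F` the
entire continuation of its incomplete `L`-series (the Euler factors at the primes dividing `2Δ` are removed), `N_p`
the number of affine points modulo `p`,

`P(x) = ∏_{p ≤ x} (N_p + 1)/p`,  `P*(x) = P(x) exp (∑_{√x < p ≤ x} (a_p² - 2p)/(2p²))`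

the original product of Birch and Swinnerton-Dyer with the SHARP cut-off, and the same product with the second order
terms. For real `ρ` and `A > 0` put `δ*(x) = log (A P*(x) / (e^γ log x)^ρ)`; let `m_t` be the order of `Λ` at `1 + it`.
`Formula F ρ A` says that `ρ = r = ord_{s=1} F` and `F^(r)(1)/r! = A`. The following is shown for every such curve,
without any further hypothesis.

1. If `log x · δ*(x) ≤ B` for all large `x`, then all zeros of `Λ` are on the line `Re s = 1`; and if moreover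
   `Formula F ρ A` holds, then `B > 0` and `B ≥ m_t/|t|` for every `t ≠ 0`. In particular, UNCONDITIONALLY,
   `P*(x) > (e^γ log x)^r / A` for arbitrarily large `x`, if `A = F^(r)(1)/r!`, with a relative excess at least `c/log x`,
   `c > 0`.
2. If `F` has no REAL zeros `s > 1`, the same holds for lower bounds `log x · δ*(x) ≥ -B`.
3. If all zeros of `Λ` are on the line `Re s = 1` and `Formula F ρ A` holds, then `Λ` has zeros `1 + it`, `t ≠ 0`, and for
   each of them and `0 ≤ c < m_t/(2|t|)` the sets `{x : log x · δ*(x) > c}` and `{x : log x · δ*(x) < -c}` both have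
   lower logarithmic density at least `(m_t/|t| - 2c)²/(4V)`, `V = ∑_{t ≠ 0} m_t²/t²`.

The same is proved for the original product, with `δ(x) = log (A P(x) / (√2 (e^γ log x)^ρ))`, under the hypothesis
`log x · (∑_{√x < p ≤ x} (a_p² - 2p)/(2p²) + (log 2)/2) → 0`, the theorem of Rankin and Selberg with a zero-free region.

So the error in the formula of Birch and Swinnerton-Dyer is never `o(1/log x)`, not even on one side; a one-sided bound
`O(1/log x)` implies the Riemann hypothesis for `E`, and its constant is at least `1/t₁`, `1 + i t₁` the lowest zero.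
That upper bounds for `P` imply the Riemann hypothesis is in `RieszLaw` of problem `MP_696deb_nt` (starting files); for
number fields see `Oscillation` of problem `MP_1a91b9_nt`. The positivity in 1 and the zeros in 3 come from the
functional equation (`SimpleZeros` of problem `MP_4a9ea6_nt`).
-/

set_option autoImplicit false

namespace Pool.Agent.Results.MP_92892c_nt.Oscillation

open Pool.Agent.W263.BSD Filter Topology Classical MeasureTheory Set Complex
open CongruenceSubgroup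
open scoped MatrixGroups
open Pool.Agent.Results.MP_8b7eba_nt.OneWindow (NoZeros)
open Pool.Agent.Results.MP_92892c_nt.ExactMeanSquareRational (devStar dev squares mult meanSquare LeadingRH SquareLaw
  ReadsZeros)
open Pool.Agent.Results.MP_4a9ea6_nt.SimpleZeros (IsFormOf IsCompleted RH Formula cE)

/-- `(log X)⁻¹ ∫_e^X 1[W(x) > c] dx/x`, the logarithmic share of the `x ≤ X` with `W(x) > c`. -/
noncomputable def share (W : ℝ → ℝ) (c X : ℝ) : ℝ :=
  (∫ x in Real.exp 1..X, (if c < W x then (1 : ℝ) else 0) / x) / Real.log X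

/-- The upper bound `log x · δ(x) ≤ B` for large `x` implies `RH Λ`; if moreover `Formula F ρ A`, then `B > 0` and
`m_t/|t| ≤ B` for all `t ≠ 0`. -/
def UpperBounds (F Λ : ℂ → ℂ) (ρ A : ℝ) (δ : ℝ → ℝ) : Prop :=
  ∀ B : ℝ, (∀ᶠ x : ℝ in atTop, Real.log x * δ x ≤ B) →
    RH Λ ∧ (Formula F ρ A → 0 < B ∧ ∀ t : ℝ, t ≠ 0 → (mult Λ t : ℝ) / |t| ≤ B)

/-- If `F` has no real zeros `> 1`: the lower bound `log x · δ(x) ≥ -B` for large `x` implies `RH Λ`; if moreover
`Formula F ρ A`, then `B > 0` and `m_t/|t| ≤ B` for all `t ≠ 0`. -/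
def LowerBounds (F Λ : ℂ → ℂ) (ρ A : ℝ) (δ : ℝ → ℝ) : Prop :=
  ∀ B : ℝ, (∀ x : ℝ, 1 < x → F x ≠ 0) → (∀ᶠ x : ℝ in atTop, -B ≤ Real.log x * δ x) →
    RH Λ ∧ (Formula F ρ A → 0 < B ∧ ∀ t : ℝ, t ≠ 0 → (mult Λ t : ℝ) / |t| ≤ B)

/-- Under `RH Λ` and `Formula F ρ A` there is a zero `1 + it`, `t ≠ 0`, and for `t ≠ 0` and `0 ≤ c < m_t/(2|t|)` the
sets `{x : log x · δ(x) > c}` and `{x : log x · δ(x) < -c}` have lower logarithmic density at least
`(m_t/|t| - 2c)²/(4V)`, `V = ∑ m_t²/t²`. -/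
def Densities (F Λ : ℂ → ℂ) (ρ A : ℝ) (δ : ℝ → ℝ) : Prop :=
  RH Λ → Formula F ρ A → (∃ t : ℝ, t ≠ 0 ∧ Λ (1 + t * I) = 0) ∧
    ∃ V : ℝ, HasSum (fun t : ℝ => ((mult Λ t : ℝ) / t) ^ 2) V ∧
    ∀ t c : ℝ, t ≠ 0 → 0 ≤ c → 2 * c < (mult Λ t : ℝ) / |t| → ∀ ε : ℝ, 0 < ε → ∀ᶠ X : ℝ in atTop,
      ((mult Λ t : ℝ) / |t| - 2 * c) ^ 2 / (4 * V) - ε ≤ share (fun x => Real.log x * δ x) c X ∧
      ((mult Λ t : ℝ) / |t| - 2 * c) ^ 2 / (4 * V) - ε ≤ share (fun x => -(Real.log x * δ x)) c X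

/-- All three statements. -/
def Oscillates (F Λ : ℂ → ℂ) (ρ A : ℝ) (δ : ℝ → ℝ) : Prop :=
  UpperBounds F Λ ρ A δ ∧ LowerBounds F Λ ρ A δ ∧ Densities F Λ ρ A δ

/-! ### translation -/

open Pool.Agent.TH270.MS (Mc BM DvR)
open Pool.Agent.TH270.MS.EQ (nQ alQ curve_mc growth_F)
open Pool.Agent.Q5.MS (Sq bm_dvR)
open Pool.Agent.Q5.BP (bm_log DvP bm_dvP dvP_close)
open Pool.Agent.Results.MP_8b7eba_nt.OneWindow (hecke)
open Pool.Agent.Results.MP_92892c_nt.ExactMeanSquareRational (squares_eq dev_eq star_tendsto bm_devStar)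
open Pool.Agent.Q5.SZ (LamN order_link lamN_diff lamN_fe)

/-- **Oscillation of the error in the formula of Birch and Swinnerton-Dyer over `ℚ`.** -/
theorem result (a b : ℤ) (hΔ : 4 * a ^ 3 + 27 * b ^ 2 ≠ 0) (F : ℂ → ℂ) (hF : IsLSeries a b F)
    (N : ℕ) [NeZero N] (f : CuspForm (Gamma0 N : Subgroup (GL (Fin 2) ℝ)) 2) (w : ℝ)
    (hf : IsFormOf a b N f w) :
    ∃ Λ : ℂ → ℂ, IsCompleted f Λ ∧ (∀ Λ', IsCompleted f Λ' → Λ' = Λ) ∧
      (∀ s : ℂ, Λ (2 - s) = (w : ℂ) * Λ s) ∧ ∀ ρ A : ℝ, 0 < A →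
        Oscillates F Λ ρ A (devStar a b ρ A) ∧
        (Tendsto (fun x : ℝ => Real.log x * (squares a b x + Real.log 2 / 2)) atTop (𝓝 0) →
          Oscillates F Λ ρ A (dev a b ρ A)) := by
  obtain ⟨Λ, hΛ, huniq, hfe, hsharp⟩ :=
    Pool.Agent.Results.MP_4a9ea6_nt.SimpleZeros.result a b hΔ F hF N f w hf
  refine ⟨Λ, hΛ, huniq, hfe, fun ρ A hA => ?_⟩
  have hΛN : Λ = LamN f := Pool.Agent.Q5.SZ.completed_eq hΛ.1 hΛ.2
  have hΛd : Differentiable ℂ Λ := hΛ.1
  have hlink : ∀ z : ℂ, 1 ≤ z.re → analyticOrderAt F z = analyticOrderAt Λ z := fun z hz => by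
    rw [hΛN]
    exact order_link hΔ hF (hecke hf.form) (fun p hp => hf.form.points p hp) hz
  have hRH : RH Λ ↔ NoZeros F := by
    have e : ∀ s : ℂ, 1 ≤ s.re → (F s = 0 ↔ Λ s = 0) := by
      intro s hs
      rw [← (hF.1.analyticAt s).analyticOrderAt_ne_zero, ← (hΛd.analyticAt s).analyticOrderAt_ne_zero,
        hlink s hs]
    constructor
    · intro h s hs h0
      have := h s ((e s hs.le).1 h0)
      linarith
    · intro h s hs
      rcases lt_trichotomy s.re 1 with hlt | heq | hgt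
      · exfalso
        have h1 : Λ (2 - s) = 0 := by rw [hfe, hs, mul_zero]
        have h2 : 1 < (2 - s).re := by
          rw [Complex.sub_re]
          norm_num
          linarith
        exact h _ h2 ((e _ h2.le).2 h1)
      · exact heq
      · exact absurd ((e s hgt.le).2 hs) (h s hgt)
  have hmult : mult F = mult Λ := by
    funext t
    unfold mult
    rw [hlink _ (by simp)]
  have hP : LeadingRH F ρ A ↔ RH Λ ∧ Formula F ρ A := by
    unfold LeadingRH Formula
    rw [hRH]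
  obtain ⟨C₀, κ, hg⟩ := growth_F hΔ hF (hecke hf.form) fun p hp => hf.form.points p hp
  have H := curve_mc hF (by norm_num : (0 : ℝ) < 1 / 8) hg
  obtain ⟨⟨t1, r1⟩, t2⟩ := Pool.Agent.Results.MP_92892c_nt.ExactMeanSquareRational.result a b hΔ F hF N f
    hf.form ρ A hA
  -- a zero
  have hzero : RH Λ → Formula F ρ A → ∃ t : ℝ, t ≠ 0 ∧ Λ (1 + t * I) = 0 := by
    intro hR hFm
    obtain ⟨⟨-, -, h3⟩, -⟩ := hsharp ρ A hA
    obtain ⟨hc, M, hM, hT⟩ := h3 hR hFm
    by_contra hno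
    push Not at hno
    have hm0 : ∀ t : ℝ, t ≠ 0 → mult Λ t = 0 := fun t ht => by
      unfold mult
      rw [((hΛd.analyticAt _).analyticOrderAt_eq_zero).2 (hno t ht)]
      rfl
    obtain ⟨V, hV, hT'⟩ := (t1.out 0 2).1 (hP.2 ⟨hR, hFm⟩)
    have e1 : (fun t : ℝ => ((mult F t : ℝ) / t) ^ 2) = fun _ => 0 := by
      funext t
      by_cases ht : t = 0
      · rw [ht]
        simp
      · rw [hmult, hm0 t ht]
        simp
    have e2 : (fun t : ℝ => (mult Λ t : ℝ) * ((mult Λ t : ℝ) - 1) / t ^ 2) = fun _ => 0 := by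
      funext t
      by_cases ht : t = 0
      · rw [ht]
        simp
      · rw [hm0 t ht]
        simp
    rw [e1] at hV
    rw [e2] at hM
    have h4 : V = 0 := hV.unique hasSum_zero
    have h5 : M = 0 := hM.unique hasSum_zero
    have h6 := tendsto_nhds_unique hT hT'
    linarith
  -- the general statement
  have key : ∀ δ : ℝ → ℝ, BM (fun x => Real.log x * δ x) →
      Tendsto (fun y : ℝ => Real.log y * -DvR (nQ a b) (alQ a b) ρ A y - Real.log y * δ y) atTop (𝓝 0) →
      (LeadingRH F ρ A → SquareLaw F δ) → (LeadingRH F ρ A → ReadsZeros F δ) →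
      Oscillates F Λ ρ A δ := by
    intro δ hW hcl s1 s2
    obtain ⟨k1, k2, k3⟩ := Pool.Agent.Q5.OM.om_pack H ρ A (P := LeadingRH F ρ A) (m := mult F) hW hcl
      s1 s2
    rw [hmult] at k1 k2 k3
    have hz : (∀ s : ℂ, 0 < s.re → F (1 + s) ≠ 0) → RH Λ := by
      intro h
      rw [hRH]
      intro s hs
      have := h (s - 1) (by simpa using hs)
      rwa [add_sub_cancel] at this
    have hpos : ∀ B : ℝ, RH Λ → Formula F ρ A → (∀ t : ℝ, t ≠ 0 → (mult Λ t : ℝ) / |t| ≤ B) →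
        0 < B := by
      intro B hR hFm hB
      obtain ⟨t, ht, h0⟩ := hzero hR hFm
      have h3 := hB t ht
      have h4 : 0 < mult Λ t := by
        obtain ⟨r, hr⟩ := Pool.Agent.W189.ML.order_finite_all hF (1 + t * I)
        rw [hlink _ (by simp)] at hr
        unfold mult
        rw [hr]
        have h5 : analyticOrderAt Λ (1 + t * I) ≠ 0 := by
          rw [(hΛd.analyticAt _).analyticOrderAt_ne_zero]
          exact h0
        rw [hr] at h5
        have h6 : r ≠ 0 := fun h => h5 (by rw [h]; rfl)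
        show 0 < r
        omega
      have h5 : (0 : ℝ) < mult Λ t := by exact_mod_cast h4
      have h6 : 0 < (mult Λ t : ℝ) / |t| := div_pos h5 (abs_pos.2 ht)
      linarith
    refine ⟨fun B hB => ?_, fun B hx hB => ?_, fun hR hFm => ?_⟩
    · obtain ⟨h3, h4⟩ := k1 B hB
      refine ⟨hz h3, fun hFm => ?_⟩
      have h5 := h4 (hP.2 ⟨hz h3, hFm⟩)
      exact ⟨hpos B (hz h3) hFm h5, h5⟩
    · obtain ⟨h3, h4⟩ := k2 B (fun x hx0 => by
        have := hx (1 + x) (by linarith)
        push_cast at this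
        exact this) hB
      refine ⟨hz h3, fun hFm => ?_⟩
      have h5 := h4 (hP.2 ⟨hz h3, hFm⟩)
      exact ⟨hpos B (hz h3) hFm h5, h5⟩
    · refine ⟨hzero hR hFm, ?_⟩
      obtain ⟨V, hV, -⟩ := s1 (hP.2 ⟨hR, hFm⟩)
      rw [hmult] at hV
      exact ⟨V, hV, k3 (hP.2 ⟨hR, hFm⟩) V hV⟩
  refine ⟨key _ (bm_log.mul (bm_devStar a b hA)) (star_tendsto a b hA) (fun h => (t1.out 0 2).1 h) r1,
    fun hc => ?_⟩
  obtain ⟨t3, r3⟩ := t2 hc
  have e : ∀ y : ℝ, Real.exp 1 ≤ y → dev a b ρ A y = DvP (nQ a b) (alQ a b) ρ A (-(Real.log 2 / 2)) y :=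
    fun y hy => dev_eq hA hy
  have hcl := dvP_close H.E ρ A (c := -(Real.log 2 / 2)) (by
    refine hc.congr fun x => ?_
    rw [squares_eq]
    ring)
  refine key _ ?_ ?_ (fun h => (t3.out 0 2).1 h) r3
  · exact Pool.Agent.Q5.OM.bm_congr (bm_log.mul (bm_dvP H ρ A (-(Real.log 2 / 2)))) fun y hy => by
      rw [e y hy]
  · have h3 := hcl.neg
    rw [neg_zero] at h3
    refine h3.congr' ?_
    filter_upwards [eventually_ge_atTop (Real.exp 1)] with y hy
    rw [e y hy]
    ring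

end Pool.Agent.Results.MP_92892c_nt.Oscillation
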