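import Pool.Agent.W263.BSD.Lead8
import Pool.Agent.W263.BSD.Lead7
import Pool.Agent.TH941.Newform

/-!
# Unconditional brackets for the leading coefficient by the original product of BSD

Let `E : y² = x³ + a x + b` be an elliptic curve over `ℚ`, `a, b ∈ ℤ`, `N_p = #E(𝔽_p)`, and
`P(x) = ∏_{p ≤ x, p ∤ 2Δ} N_p / p` the original product of Birch and Swinnerton-Dyer.  Let `F` be the entire
continuation of the incomplete `L`-series, `r = ord_{s=1} F` and `T = √2 e^{rγ} r! / |F^{(r)}(1)|`.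

Goldfeld (1982): if `P(x) ∼ C (log x)^k`, then `k = r`, `C = T` and the Riemann hypothesis holds for `E`.
Here nothing is assumed about the convergence of `P(x) / (log x)^r`:

* `limsup P(x) / (log x)^r ≥ T`, for every `E`;
* `liminf P(x) / (log x)^r ≤ T`, if `F` has no REAL zeros `> 1`.

So an upper bound `P(x) ≤ C (log x)^k` for all large `x` gives `r ≤ k` and, if `k = r`, the lower bound
`|F^{(r)}(1)| / r! ≥ √2 e^{rγ} / C`; and, without real zeros `> 1`, a lower bound `P(x) ≥ c (log x)^k` gives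
`k ≤ r` and, if `k = r`, the upper bound `|F^{(r)}(1)| / r! ≤ √2 e^{rγ} / c`.
-/

set_option autoImplicit false

namespace Pool.Agent.Results.MP_92892c_nt.ProductBrackets

open Filter Topology Classical CongruenceSubgroup UpperHalfPlane
open scoped MatrixGroups

/-- `N_p`: the number of points of `y² = x³ + a x + b` modulo `p`, with the point at infinity. -/
noncomputable def numPoints (a b : ℤ) (p : ℕ) : ℕ :=
  Nat.card {q : ZMod p × ZMod p // q.2 ^ 2 = q.1 ^ 3 + (a : ZMod p) * q.1 + (b : ZMod p)} + 1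

/-- `p` is a prime that does not divide `2 Δ`, where `Δ = -4 a³ - 27 b²`. -/
def Good (a b : ℤ) (p : ℕ) : Prop :=
  p.Prime ∧ ¬ ((p : ℤ) ∣ 2 * (-4 * a ^ 3 - 27 * b ^ 2))

/-- The original Birch and Swinnerton-Dyer product `P(x) = ∏_{p ≤ x, p ∤ 2Δ} N_p / p`. -/
noncomputable def P (a b : ℤ) (x : ℝ) : ℝ :=
  ∏ p ∈ (Finset.range (⌊x⌋₊ + 1)).filter (Good a b), ((numPoints a b p : ℝ) / p)

/-- `F` is an entire function which for `Re s > 3/2` is the incomplete `L`-series
`∏_{p ∤ 2Δ} (1 - a_p p^{-s} + p^{1-2s})⁻¹`, `a_p = p + 1 - N_p`, of `y² = x³ + a x + b`. -/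
def IsLSeries (a b : ℤ) (F : ℂ → ℂ) : Prop :=
  Differentiable ℂ F ∧ ∀ s : ℂ, (3 : ℝ) / 2 < s.re →
    HasProd (fun p : ℕ => if Good a b p then
      (1 - ((p : ℂ) + 1 - (numPoints a b p : ℂ)) * (p : ℂ) ^ (-s) + (p : ℂ) ^ (1 - 2 * s))⁻¹ else 1)
      (F s)

/-- The `n`-th Fourier coefficient of `f`. -/
noncomputable def coef {N : ℕ} (f : CuspForm (Gamma0 N : Subgroup (GL (Fin 2) ℝ)) 2) (n : ℕ) : ℂ :=
  (qExpansion 1 f).coeff n

/-- `f ∈ S_2(Γ₀(N))` is the newform of the elliptic curve `E : y² = x³ + a x + b` of conductor `N`: the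
Fourier coefficients `c(n)` of `f` are real with `c(1) = 1`, they satisfy the Hecke relations
`c(mn) = c(m) c(n)` for coprime `m`, `n` and `c(p^(j+2)) = c(p) c(p^(j+1)) - p c(p^j)` (without the last
term if `p ∣ N`), `c(p) = a_p = p + 1 - N_p` for all primes `p ∤ 2Δ`, `|c(p)| ≤ 2 √p` for all
`p ∤ N` (Hasse) and `c(p) = 0, 1, -1` for `p ∣ N`. -/
structure IsNewformOf (a b : ℤ) (N : ℕ) (f : CuspForm (Gamma0 N : Subgroup (GL (Fin 2) ℝ)) 2) :
    Prop where
  one : coef f 1 = 1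
  real : ∀ n, (coef f n).im = 0
  mul : ∀ m n : ℕ, Nat.Coprime m n → coef f (m * n) = coef f m * coef f n
  pow : ∀ p j : ℕ, p.Prime → coef f (p ^ (j + 2)) = coef f p * coef f (p ^ (j + 1)) -
      (if p ∣ N then 0 else (p : ℂ) * coef f (p ^ j))
  points : ∀ p : ℕ, Good a b p → coef f p = (p : ℂ) + 1 - (numPoints a b p : ℂ)
  good : ∀ p : ℕ, p.Prime → ¬ p ∣ N → ‖coef f p‖ ≤ 2 * Real.sqrt p
  bad : ∀ p : ℕ, p.Prime → p ∣ N → coef f p = 0 ∨ coef f p = 1 ∨ coef f p = -1

/-- Goldfeld's constant `T = √2 e^{rγ} r! / |F^{(r)}(1)|` -/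
noncomputable def T (F : ℂ → ℂ) (r : ℕ) : ℝ :=
  √2 * Real.exp (r * Real.eulerMascheroniConstant) * r.factorial / ‖iteratedDeriv r F 1‖

/-- `F` has no real zeros `> 1`. -/
def NoRealZeros (F : ℂ → ℂ) : Prop := ∀ s : ℝ, 1 < s → F s ≠ 0

/-! ### translation -/

open Pool.Agent.W263.BSD (bsdProduct bsdStar leadAbs rsSum corr_tendsto bracket_up bracket_down)

theorem P_eq (a b : ℤ) : P a b = bsdProduct a b := by
  funext x
  unfold P bsdProduct
  refine Finset.prod_congr rfl fun p _ => ?_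
  congr 1
  unfold numPoints
  push_cast
  rfl

theorem ls_eq {a b : ℤ} {F : ℂ → ℂ} (h : IsLSeries a b F) : Pool.Agent.W263.BSD.IsLSeries a b F := by
  refine ⟨h.1, fun s hs => ?_⟩
  refine (congrArg (fun g => HasProd g (F s)) (funext fun p => ?_)).mp (h.2 s hs)
  unfold numPoints
  push_cast
  rw [add_sub_add_right_eq_sub]
  rfl

theorem hecke {a b : ℤ} {N : ℕ} {f : CuspForm (Gamma0 N : Subgroup (GL (Fin 2) ℝ)) 2}
    (hf : IsNewformOf a b N f) : Pool.Agent.TH941.Hecke f where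
  one := hf.one
  real := hf.real
  mul := hf.mul
  pow := hf.pow
  good := hf.good
  bad := fun p hp h => by
    rcases hf.bad p hp h with h1 | h1 | h1
    · have h2 : ‖coef f p‖ ≤ 1 := by rw [h1]; simp
      exact h2
    · have h2 : ‖coef f p‖ ≤ 1 := by rw [h1]; simp
      exact h2
    · have h2 : ‖coef f p‖ ≤ 1 := by rw [h1]; simp
      exact h2

/-- the product and the corrected product differ by a factor that tends to `√2` -/
theorem product_eq {a b : ℤ} (hΔ : 4 * a ^ 3 + 27 * b ^ 2 ≠ 0)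
    (h : Tendsto (rsSum a b) atTop (𝓝 0)) :
    ∃ e : ℝ → ℝ, Tendsto e atTop (𝓝 (√2)) ∧ ∀ x, bsdProduct a b x = bsdStar a b x * e x := by
  have hc := corr_tendsto hΔ h
  have h5 : Real.exp (-(-(Real.log 2 / 2))) = √2 := by
    rw [neg_neg, Real.sqrt_eq_rpow, Real.rpow_def_of_pos two_pos]
    congr 1; ring
  refine ⟨_, h5 ▸ hc.neg.rexp, fun x => ?_⟩
  unfold bsdStar
  rw [mul_assoc, ← Real.exp_add, add_neg_cancel, Real.exp_zero, mul_one]

/-- transfer of the upper bracket -/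
theorem up_transfer {S P' e : ℝ → ℝ} {r : ℕ} {T₀ : ℝ} (hT : 0 < T₀)
    (he : Tendsto e atTop (𝓝 (√2))) (hP : ∀ x, P' x = S x * e x)
    (h : ∀ ε : ℝ, 0 < ε → ∃ᶠ x : ℝ in atTop, (T₀ - ε) * (Real.log x) ^ r < S x)
    {ε : ℝ} (hε : 0 < ε) : ∃ᶠ x : ℝ in atTop, (√2 * T₀ - ε) * (Real.log x) ^ r < P' x := by
  have s2 : (0 : ℝ) < √2 := Real.sqrt_pos.2 two_pos
  have hlim : Tendsto (fun η : ℝ => (T₀ - η) * (√2 - η)) (𝓝[>] 0) (𝓝 (√2 * T₀)) := by
    have h2 : Continuous fun η : ℝ => (T₀ - η) * (√2 - η) := by fun_prop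
    have := h2.tendsto 0
    simp only [sub_zero] at this
    rw [mul_comm (√2)]
    exact tendsto_nhdsWithin_of_tendsto_nhds this
  have hsm : ∀ᶠ η : ℝ in 𝓝[>] 0, η < T₀ ∧ η < √2 :=
    tendsto_nhdsWithin_of_tendsto_nhds (tendsto_id (α := ℝ) (x := 𝓝 0))
      |>.eventually ((gt_mem_nhds hT).and (gt_mem_nhds s2))
  obtain ⟨η, h1, ⟨h2, h3⟩, h4⟩ := ((hlim.eventually (lt_mem_nhds
    (show √2 * T₀ - ε < √2 * T₀ by linarith))).and (hsm.and self_mem_nhdsWithin)).exists
  have h4' : 0 < η := h4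
  have h5 : ∀ᶠ x : ℝ in atTop, √2 - η < e x := he.eventually (lt_mem_nhds (by linarith))
  refine ((h η h4').and_eventually (h5.and
    (Real.tendsto_log_atTop.eventually_gt_atTop 0))).mono ?_
  rintro x ⟨h6, h7, h8⟩
  have hL : 0 < (Real.log x) ^ r := pow_pos h8 r
  rw [hP]
  calc (√2 * T₀ - ε) * (Real.log x) ^ r ≤ (T₀ - η) * (√2 - η) * (Real.log x) ^ r :=
        mul_le_mul_of_nonneg_right h1.le hL.le
    _ = ((T₀ - η) * (Real.log x) ^ r) * (√2 - η) := by ring
    _ < S x * (√2 - η) := mul_lt_mul_of_pos_right h6 (by linarith)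
    _ ≤ S x * e x := by
        refine mul_le_mul_of_nonneg_left h7.le ?_
        exact (lt_trans (mul_pos (by linarith) hL) h6).le

/-- transfer of the lower bracket -/
theorem down_transfer {S P' e : ℝ → ℝ} {r : ℕ} {T₀ : ℝ} (hS : ∀ x, 0 < S x)
    (he : Tendsto e atTop (𝓝 (√2))) (hP : ∀ x, P' x = S x * e x)
    (h : ∀ ε : ℝ, 0 < ε → ∃ᶠ x : ℝ in atTop, S x < (T₀ + ε) * (Real.log x) ^ r)
    {ε : ℝ} (hε : 0 < ε) : ∃ᶠ x : ℝ in atTop, P' x < (√2 * T₀ + ε) * (Real.log x) ^ r := by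
  have s2 : (0 : ℝ) < √2 := Real.sqrt_pos.2 two_pos
  have hlim : Tendsto (fun η : ℝ => (T₀ + η) * (√2 + η)) (𝓝[>] 0) (𝓝 (√2 * T₀)) := by
    have h2 : Continuous fun η : ℝ => (T₀ + η) * (√2 + η) := by fun_prop
    have := h2.tendsto 0
    simp only [add_zero] at this
    rw [mul_comm (√2)]
    exact tendsto_nhdsWithin_of_tendsto_nhds this
  obtain ⟨η, h1, h4⟩ := ((hlim.eventually (gt_mem_nhds
    (show √2 * T₀ < √2 * T₀ + ε by linarith))).and self_mem_nhdsWithin).exists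
  have h4' : 0 < η := h4
  have h5 : ∀ᶠ x : ℝ in atTop, e x < √2 + η := he.eventually (gt_mem_nhds (by linarith))
  refine ((h η h4').and_eventually (h5.and
    (Real.tendsto_log_atTop.eventually_gt_atTop 0))).mono ?_
  rintro x ⟨h6, h7, h8⟩
  have hL : 0 < (Real.log x) ^ r := pow_pos h8 r
  rw [hP]
  calc S x * e x ≤ S x * (√2 + η) := mul_le_mul_of_nonneg_left h7.le (hS x).le
    _ < ((T₀ + η) * (Real.log x) ^ r) * (√2 + η) := mul_lt_mul_of_pos_right h6 (by linarith)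
    _ = (T₀ + η) * (√2 + η) * (Real.log x) ^ r := by ring
    _ ≤ (√2 * T₀ + ε) * (Real.log x) ^ r := mul_le_mul_of_nonneg_right h1.le hL.le

/-- **Unconditional brackets for the leading coefficient.** -/
theorem result (a b : ℤ) (hΔ : 4 * a ^ 3 + 27 * b ^ 2 ≠ 0) (F : ℂ → ℂ) (hF : IsLSeries a b F)
    (N : ℕ) [NeZero N] (f : CuspForm (Gamma0 N : Subgroup (GL (Fin 2) ℝ)) 2)
    (hf : IsNewformOf a b N f) :
    ∃ r : ℕ, analyticOrderAt F 1 = r ∧ iteratedDeriv r F 1 ≠ 0 ∧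
      (∀ ε : ℝ, 0 < ε → ∃ᶠ x : ℝ in atTop, (T F r - ε) * (Real.log x) ^ r < P a b x) ∧
      (NoRealZeros F → ∀ ε : ℝ, 0 < ε →
        ∃ᶠ x : ℝ in atTop, P a b x < (T F r + ε) * (Real.log x) ^ r) ∧
      (∀ (k : ℕ) (C : ℝ), (∀ᶠ x : ℝ in atTop, P a b x ≤ C * (Real.log x) ^ k) →
        r ≤ k ∧ (k = r → T F r ≤ C)) ∧
      (NoRealZeros F → ∀ (k : ℕ) (c : ℝ), 0 < c →
        (∀ᶠ x : ℝ in atTop, c * (Real.log x) ^ k ≤ P a b x) → k ≤ r ∧ (k = r → c ≤ T F r)) := by
  have hF' := ls_eq hF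
  obtain ⟨r, hr⟩ := Pool.Agent.W263.BSD.order_finite hF'
  have hrs : Tendsto (rsSum a b) atTop (𝓝 0) := by
    refine (hecke hf).rsSum_tendsto hΔ fun p hp => ?_
    have h1 := hf.points p hp
    unfold numPoints at h1
    push_cast at h1
    rw [add_sub_add_right_eq_sub] at h1
    exact h1
  have hpos : 0 < leadAbs F r := (Pool.Agent.W263.BSD.lead_limit hF'.1 hr).1
  have hne : iteratedDeriv r F 1 ≠ 0 := by
    intro h
    unfold leadAbs at hpos
    rw [h, norm_zero, zero_div] at hpos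
    exact lt_irrefl _ hpos
  have hnn : 0 < ‖iteratedDeriv r F 1‖ := norm_pos_iff.2 hne
  set T₀ : ℝ := Real.exp (r * Real.eulerMascheroniConstant) / leadAbs F r with hT₀
  have hT : T F r = √2 * T₀ := by
    rw [hT₀]
    unfold T leadAbs
    have : (0 : ℝ) < r.factorial := by exact_mod_cast r.factorial_pos
    field_simp
  have hT₀pos : 0 < T₀ := by positivity
  have s2 : (0 : ℝ) < √2 := Real.sqrt_pos.2 two_pos
  obtain ⟨e, he, hPe⟩ := product_eq hΔ hrs
  have up : ∀ ε : ℝ, 0 < ε → ∃ᶠ x : ℝ in atTop, (T F r - ε) * (Real.log x) ^ r < P a b x := by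
    intro ε hε
    rw [hT, P_eq]
    exact up_transfer hT₀pos he hPe (fun ε hε => bracket_up hF' hr hε) hε
  have down : NoRealZeros F → ∀ ε : ℝ, 0 < ε →
      ∃ᶠ x : ℝ in atTop, P a b x < (T F r + ε) * (Real.log x) ^ r := by
    intro hz ε hε
    rw [hT, P_eq]
    exact down_transfer (fun x => Pool.Agent.W263.BSD.bsdStar_pos x) he hPe
      (fun ε hε => bracket_down hF' hr hz hε) hε
  have hTpos : 0 < T F r := by rw [hT]; positivity
  refine ⟨r, hr, hne, up, down, ?_, ?_⟩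
  · intro k C hC
    have hle : r ≤ k := by
      by_contra hcon
      push Not at hcon
      -- `C (log x)^k ≤ (T/4) (log x)^r` eventually
      have h1 : ∀ᶠ x : ℝ in atTop, C ≤ T F r / 2 * Real.log x :=
        (Real.tendsto_log_atTop.const_mul_atTop (half_pos hTpos)).eventually_ge_atTop C
      obtain ⟨x, h2, h3, h4, h5⟩ := ((up (T F r / 2) (half_pos hTpos)).and_eventually
        (hC.and (h1.and (Real.tendsto_log_atTop.eventually_ge_atTop 1)))).exists
      obtain ⟨j, hj⟩ : ∃ j, r = k + 1 + j := ⟨r - (k + 1), by omega⟩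
      have hLk : 0 < (Real.log x) ^ k := pow_pos (by linarith) k
      have h6 : (Real.log x) ^ (k + 1) ≤ (Real.log x) ^ r := pow_le_pow_right₀ h5 (by omega)
      have h7 : C * (Real.log x) ^ k ≤ T F r / 2 * (Real.log x) ^ (k + 1) := by
        rw [pow_succ]
        calc C * (Real.log x) ^ k ≤ (T F r / 2 * Real.log x) * (Real.log x) ^ k :=
              mul_le_mul_of_nonneg_right h4 hLk.le
          _ = _ := by ring
      have h8 : T F r / 2 * (Real.log x) ^ (k + 1) ≤ T F r / 2 * (Real.log x) ^ r :=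
        mul_le_mul_of_nonneg_left h6 (half_pos hTpos).le
      have h9 : (T F r - T F r / 2) = T F r / 2 := by ring
      rw [h9] at h2
      linarith
    refine ⟨hle, fun hk => ?_⟩
    subst hk
    by_contra hcon
    push Not at hcon
    obtain ⟨x, h2, h3⟩ := ((up (T F k - C) (by linarith)).and_eventually hC).exists
    rw [sub_sub_cancel] at h2
    linarith
  · intro hz k c hc hC
    have hle : k ≤ r := by
      by_contra hcon
      push Not at hcon
      have h1 : ∀ᶠ x : ℝ in atTop, T F r + 1 ≤ c * Real.log x :=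
        (Real.tendsto_log_atTop.const_mul_atTop hc).eventually_ge_atTop _
      obtain ⟨x, h2, h3, h4, h5⟩ := ((down hz 1 one_pos).and_eventually
        (hC.and (h1.and (Real.tendsto_log_atTop.eventually_ge_atTop 1)))).exists
      have hLr : 0 < (Real.log x) ^ r := pow_pos (by linarith) r
      have h6 : (Real.log x) ^ (r + 1) ≤ (Real.log x) ^ k := pow_le_pow_right₀ h5 (by omega)
      have h7 : (T F r + 1) * (Real.log x) ^ r ≤ c * (Real.log x) ^ (r + 1) := by
        rw [pow_succ]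
        calc (T F r + 1) * (Real.log x) ^ r ≤ (c * Real.log x) * (Real.log x) ^ r :=
              mul_le_mul_of_nonneg_right h4 hLr.le
          _ = _ := by ring
      have h8 : c * (Real.log x) ^ (r + 1) ≤ c * (Real.log x) ^ k :=
        mul_le_mul_of_nonneg_left h6 hc.le
      linarith
    refine ⟨hle, fun hk => ?_⟩
    subst hk
    by_contra hcon
    push Not at hcon
    obtain ⟨x, h2, h3⟩ := ((down hz (c - T F k) (by linarith)).and_eventually hC).exists
    rw [add_sub_cancel] at h2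
    linarith

end Pool.Agent.Results.MP_92892c_nt.ProductBrackets
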