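import Pool.Agent.Q45.ML.EC
import Pool.Agent.Q117.ML.Lead

/-!
# The square root of the analytic order of the Tate-Shafarevich group from point counts

Let `E` be an elliptic curve over `ℚ`, `L(E, s) = ∏_v (1 - a_v q_v^{-s} + e_v q_v^{-2s})⁻¹` the complete `L`-series (all
primes, minimal models) and `F` its continuation. With the roots `α_v, β_v` of `X² - a_v X + e_v` and `γ > π/2` put

`S(T) = ∑_v ∑_{k ≥ 1} (α_v^k + β_v^k)/(k q_v^k) e^{iγ k log q_v/T} / Γ(1 + k log q_v/T)`.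

Let `Ω, R > 0` be the real period and the regulator, `c` the product of the Tamagawa numbers, `t` the order of the torsion
subgroup, `r` the rank. By a theorem of Cassels `#Ш = n²`, and the leading-term formula is
`F^{(r)}(1)/r! = Ω R c n²/t²`. The half sum

`V(T) = (t/√(Ω R c)) exp((S(T) + r (log T - Λ))/2)`

does not oscillate between the two square roots: order `r` and formula hold if and only if the number `2k` of zeros of
`F` in `(1, ∞)` is even and `V(T) = (-1)^k n + O(1/T)`, if and only if `V(T)² → n²` along one sequence `T → ∞`.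
-/

set_option autoImplicit false

namespace Pool.Agent.Results.MP_92892c_nt.SquareRootOfSha

open IsDedekindDomain NumberField Filter Topology Asymptotics Pool.Agent.W189.NF

/-- `F` continues the `L`-series of `E` (`Re s > 2`), is meromorphic at every point of `[1, 2]` and analytic at `1`. -/
def IsContinuation (E : WeierstrassCurve ℚ) (F : ℂ → ℂ) : Prop :=
  (∀ x : ℝ, 1 ≤ x → x ≤ 2 → MeromorphicAt F (x : ℂ)) ∧ (∀ s : ℂ, 2 < s.re → F s = E.LSeries s) ∧
    AnalyticAt ℂ F 1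

/-- the term at `(v, k)`, `k = x.2 + 1`, of the smoothed sum (see `ecTerm`) -/
noncomputable def term (E : WeierstrassCurve ℚ) (γ T : ℝ) (x : HeightOneSpectrum (𝓞 ℚ) × ℕ) : ℂ :=
  Pool.Agent.Q45.ML.ecTerm E γ T x

/-- the smoothed sum -/
noncomputable def S (E : WeierstrassCurve ℚ) (γ T : ℝ) : ℂ := ∑' x, term E γ T x

/-- `Λ = ∫_0^∞ (e^{-u} - e^{iγu} / Γ(1 + u)) du / u` -/
noncomputable def Λ (γ : ℝ) : ℂ := ∫ u in Set.Ioi (0 : ℝ),
  (Complex.exp (-(u : ℂ)) - Complex.exp ((γ * u : ℝ) * Complex.I) * ((Real.Gamma (1 + u))⁻¹ : ℝ)) / u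

/-- `(t/√(Ω R c)) exp((S(T) + r (log T - Λ))/2)` -/
noncomputable def V (E : WeierstrassCurve ℚ) (γ : ℝ) (r : ℕ) (Ω R : ℝ) (c t : ℕ) (T : ℝ) : ℂ :=
  ((t / √(Ω * R * c) : ℝ) : ℂ) * Complex.exp ((S E γ T + r * (Real.log T - Λ γ)) / 2)

/-- number of zeros minus number of poles of `F` on `(1, ∞)`, with multiplicities -/
noncomputable def realZeros (F : ℂ → ℂ) : ℤ :=
  ∑ᶠ σ ∈ Set.Ioi (1 : ℝ), (meromorphicOrderAt F (σ : ℂ)).untop₀

theorem half_rate {S : ℝ → ℂ} {γ : ℝ} {m : ℤ} {ρ : ℂ}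
    (hO : (fun T : ℝ => S T - (ρ - m * (Real.log T - Pool.Agent.W187.UR.Lam γ))) =O[atTop]
      (fun T : ℝ => 1 / T)) (a : ℂ) :
    (fun T : ℝ => a * Complex.exp ((S T + m * (Real.log T - Pool.Agent.W187.UR.Lam γ)) / 2) -
      a * Complex.exp (ρ / 2)) =O[atTop] (fun T : ℝ => 1 / T) := by
  have h0 : Tendsto (fun T : ℝ => (S T - (ρ - m * (Real.log T - Pool.Agent.W187.UR.Lam γ))) / 2) atTop
      (𝓝 0) := by
    have := (Pool.Agent.Q45.ML.diff_tendsto hO).div_const 2
    simpa using this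
  have h1 : (fun T : ℝ => Complex.exp ((S T - (ρ - m * (Real.log T - Pool.Agent.W187.UR.Lam γ))) / 2) - 1)
      =O[atTop] (fun T : ℝ => (S T - (ρ - m * (Real.log T - Pool.Agent.W187.UR.Lam γ))) / 2) := by
    have h2 : (fun z : ℂ => Complex.exp z - 1) =O[𝓝 0] fun z => z := by
      have := (Complex.hasDerivAt_exp 0).isBigO_sub
      simpa using this
    exact h2.comp_tendsto h0
  have h3 : (fun T : ℝ => (S T - (ρ - m * (Real.log T - Pool.Agent.W187.UR.Lam γ))) / 2) =O[atTop]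
      (fun T : ℝ => 1 / T) := by
    have := hO.const_mul_left (1 / 2 : ℂ)
    refine this.congr_left fun T => ?_
    ring
  refine ((h1.trans h3).const_mul_left (a * Complex.exp (ρ / 2))).congr_left fun T => ?_
  rw [mul_sub, mul_one, mul_assoc, ← Complex.exp_add]
  congr 3
  ring

theorem result (E : WeierstrassCurve ℚ) (F : ℂ → ℂ) (hF : IsContinuation E F) {γ : ℝ}
    (hγ : Real.pi / 2 < γ) (r c t : ℕ) (hc : 0 < c) (ht : 0 < t) {Ω R : ℝ} (hΩ : 0 < Ω) (hR : 0 < R) :
    (∀ T : ℝ, 0 < T → Summable fun x => ‖term E γ T x‖) ∧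
    ∀ n : ℕ, 0 < n → List.TFAE [
      analyticOrderAt F 1 = r ∧
        iteratedDeriv r F 1 / r.factorial = Ω * R * c * n ^ 2 / t ^ 2,
      ∃ k : ℤ, realZeros F = 2 * k ∧
        (fun T : ℝ => V E γ r Ω R c t T - (-1) ^ k * n) =O[atTop] (fun T : ℝ => 1 / T),
      ∃ x : ℕ → ℝ, Tendsto x atTop atTop ∧
        Tendsto (fun i => V E γ r Ω R c t (x i) ^ 2) atTop (𝓝 (n ^ 2))] := by
  refine ⟨fun T hT => Pool.Agent.Q45.ML.ecTerm_summable E γ hT, fun n hn => ?_⟩
  have hF' : IsCont E F := ⟨hF.1, hF.2.1⟩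
  have h1 := hF.2.2
  obtain ⟨m, ρ, g1, g2, g3, g4⟩ := Pool.Agent.Q45.ML.ec_law hF' hγ
  rw [Complex.ofReal_one] at g1 g2
  obtain ⟨d, hd, hord⟩ := Pool.Agent.Q45.ML.ord_nat h1 g1
  rw [Pool.Agent.Q117.ML.leading_eq h1 hord] at g2
  set a : ℝ := t / √(Ω * R * c) with ha
  have hA : 0 < Ω * R * c := by positivity
  have ha0 : 0 < a := by positivity
  have ha2 : a ^ 2 = t ^ 2 / (Ω * R * c) := by
    rw [ha, div_pow, Real.sq_sqrt hA.le]
  have hac : (a : ℂ) ≠ 0 := by exact_mod_cast ha0.ne'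
  have hn0 : (0 : ℝ) < n := by exact_mod_cast hn
  have hΛ : Λ γ = Pool.Agent.W187.UR.Lam γ := rfl
  have hSS : ∀ T, S E γ T = Pool.Agent.Q45.ML.ecSum E γ T := fun T => rfl
  -- the formula in terms of `a`
  have hform : ((Ω * R * c * n ^ 2 / t ^ 2 : ℂ)) = (((n / a) ^ 2 : ℝ) : ℂ) := by
    have h2 : (n / a) ^ 2 = Ω * R * c * n ^ 2 / t ^ 2 := by
      rw [div_pow, ha2]
      have : (t : ℝ) ≠ 0 := by positivity
      field_simp
    rw [h2]
    push_cast
    rfl
  have hsq : ∀ T : ℝ, 0 < T → V E γ r Ω R c t T ^ 2 =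
      (a : ℂ) ^ 2 * Complex.exp (-(r * Λ γ)) *
        (Complex.exp (Pool.Agent.Q45.ML.ecSum E γ T) * (T : ℂ) ^ (r : ℤ)) := by
    intro T hT
    have h3 : (T : ℂ) ^ (r : ℤ) = Complex.exp ((r : ℤ) * Real.log T) := by
      rw [Complex.exp_int_mul, ← Complex.ofReal_exp, Real.exp_log hT]
    have h4 : Complex.exp ((S E γ T + r * (Real.log T - Λ γ)) / 2) ^ 2 =
        Complex.exp (S E γ T + r * (Real.log T - Λ γ)) := by
      rw [← Complex.exp_nat_mul]
      congr 1
      push_cast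
      ring
    unfold V
    rw [← ha, mul_pow, h4, h3, ← hSS, mul_assoc ((a : ℂ) ^ 2), ← Complex.exp_add, ← Complex.exp_add]
    congr 2
    push_cast
    ring
  tfae_have 1 → 2 := by
    rintro ⟨h2, h3⟩
    have hdr : d = r := by
      rw [hord] at h2
      exact_mod_cast h2
    subst hdr
    rw [h3, hform] at g2
    have hre : ρ.re = 2 * Real.log (n / a) := by
      have h4 := congrArg (fun z => ‖z‖) g2
      simp only [Complex.norm_exp, Complex.norm_real, Real.norm_eq_abs] at h4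
      rw [abs_of_pos (by positivity)] at h4
      have h5 := congrArg Real.log h4
      rw [Real.log_exp, Real.log_pow] at h5
      push_cast at h5
      exact h5
    have hcos : Real.cos ρ.im = 1 := by
      have h4 := congrArg Complex.re g2
      rw [Complex.exp_re, Complex.ofReal_re, hre] at h4
      have h5 : Real.exp (2 * Real.log (n / a)) = (n / a) ^ 2 := by
        rw [two_mul, Real.exp_add, Real.exp_log (by positivity)]
        ring
      rw [h5] at h4
      have h6 : 0 < (n / a) ^ 2 := by positivity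
      field_simp at h4
      linarith
    obtain ⟨k', hk'⟩ := (Real.cos_eq_one_iff _).1 hcos
    have hN : realZeros F = 2 * (-k') := by
      have h4 : ((realZeros F : ℤ) : ℝ) = ((2 * (-k') : ℤ) : ℝ) := by
        have h5 : -Real.pi * (realZeros F : ℝ) = ρ.im := g3.symm
        have hpi := Real.pi_pos
        rw [← hk'] at h5
        push_cast
        have h6 : Real.pi * ((realZeros F : ℝ) + 2 * k') = 0 := by linarith
        rcases mul_eq_zero.1 h6 with h7 | h7
        · exact absurd h7 hpi.ne'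
        · linarith
      exact_mod_cast h4
    refine ⟨-k', hN, ?_⟩
    have h4 := half_rate g4 (a : ℂ)
    have h5 : (a : ℂ) * Complex.exp (ρ / 2) = (-1) ^ (-k') * n := by
      have e1 : ρ / 2 = ((Real.log (n / a) : ℝ) : ℂ) + k' * (Real.pi * Complex.I) := by
        apply Complex.ext
        · simp [hre]
        · simp [← hk']
          ring
      rw [e1, Complex.exp_add, ← Complex.ofReal_exp, Real.exp_log (by positivity),
        Complex.exp_int_mul, Complex.exp_pi_mul_I]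
      have e2 : ((-1 : ℂ)) ^ (-k') = (-1) ^ k' := by
        rw [zpow_neg, ← inv_zpow]
        norm_num
      rw [e2]
      push_cast
      field_simp
    rw [h5] at h4
    refine h4.congr_left fun T => ?_
    rw [hd]
    rfl
  tfae_have 2 → 3 := by
    rintro ⟨k, -, hk⟩
    refine ⟨fun n => n, tendsto_natCast_atTop_atTop, ?_⟩
    have h2 := ((Pool.Agent.Q45.ML.tendsto_of_rate hk).pow 2).comp
      (tendsto_natCast_atTop_atTop (R := ℝ))
    have h3 : ((-1 : ℂ) ^ k * n) ^ 2 = n ^ 2 := by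
      rw [mul_pow, ← zpow_natCast, ← zpow_mul, mul_comm k, zpow_mul]
      norm_num
    rw [h3] at h2
    exact h2
  tfae_have 3 → 1 := by
    rintro ⟨x, hx, h2⟩
    have hB : (((n / a) ^ 2 : ℝ) : ℂ) ≠ 0 := by
      have : 0 < (n / a) ^ 2 := by positivity
      exact_mod_cast this.ne'
    have h3 : Tendsto (fun i => Complex.exp (Pool.Agent.Q45.ML.ecSum E γ (x i)) * (x i : ℂ) ^ (r : ℤ)) atTop
        (𝓝 ((((n / a) ^ 2 : ℝ) : ℂ) * Complex.exp ((r : ℤ) * Pool.Agent.W187.UR.Lam γ))) := by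
      have h4 := h2.const_mul (((a : ℂ) ^ 2)⁻¹ * Complex.exp (r * Λ γ))
      have e1 : ((a : ℂ) ^ 2)⁻¹ * Complex.exp (r * Λ γ) * (n : ℂ) ^ 2 =
          (((n / a) ^ 2 : ℝ) : ℂ) * Complex.exp ((r : ℤ) * Pool.Agent.W187.UR.Lam γ) := by
        push_cast
        rw [hΛ]
        field_simp
      rw [e1] at h4
      refine h4.congr' ?_
      filter_upwards [hx.eventually_gt_atTop 0] with i hi
      rw [hsq _ hi, Complex.exp_neg]
      field_simp
    have hiff : (m = r ∧ Complex.exp ρ = (((n / a) ^ 2 : ℝ) : ℂ)) ↔ ∃ t : ℕ → ℝ, Tendsto t atTop atTop ∧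
        Tendsto (fun i => Complex.exp (Pool.Agent.Q45.ML.ecSum E γ (t i)) * (t i : ℂ) ^ (r : ℤ)) atTop
          (𝓝 ((((n / a) ^ 2 : ℝ) : ℂ) * Complex.exp ((r : ℤ) * Pool.Agent.W187.UR.Lam γ))) :=
      (Pool.Agent.Q45.ML.coeff_tfae g4 (r : ℤ) hB).out 0 2
    obtain ⟨h5, h6⟩ := hiff.2 ⟨x, hx, h3⟩
    have hdr : d = r := by
      rw [hd] at h5
      exact_mod_cast h5
    subst hdr
    refine ⟨hord, ?_⟩
    rw [← g2, h6, hform]
  tfae_finish

end Pool.Agent.Results.MP_92892c_nt.SquareRootOfSha
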